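import Mathlib

/-!
# Divisors of `x^(p q^b) - 1` of height at least `p (p + 1) / 2`, `b ≥ 3`

Let `p < q` be odd primes, `g = Φ_{pq} Φ_{q^2}` and `f = Φ_p Φ_q Φ_{p q^2} Φ_{q^3} = Φ_p(x) Φ_q(x) g(x^q)`.
The coefficient of `f` at `q M + p - 1` is `p` times the coefficient of `g` at `M`. On the other hand
`Φ_p g = (Φ_p Φ_q)(x^q)`, so that the sums of `p` consecutive coefficients of `g` ending at `q (p-1)` and `q (p-1) + 1`
are `p` and `0`; hence two coefficients of `g` differ by `p`, and one of them is at least `(p+1)/2` in absolute value.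
-/

namespace Pool.Agent.Results.MP_7a0dfe_nt.StrictLowerBound

open Polynomial

/-- the height of an integer polynomial: the largest absolute value of a coefficient -/
noncomputable def height (f : ℤ[X]) : ℕ := f.support.sup (fun i => (f.coeff i).natAbs)

lemma le_height (f : ℤ[X]) (i : ℕ) : (f.coeff i).natAbs ≤ height f := by
  by_cases hi : i ∈ f.support
  · exact Finset.le_sup (f := fun i => (f.coeff i).natAbs) hi
  · rw [notMem_support_iff.mp hi]; exact Nat.zero_le _

/-- coefficients of `(1 + x + ... + x^(p-1)) f` -/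
lemma coeff_geom_mul (p : ℕ) (f : ℤ[X]) (n : ℕ) (hn : p ≤ n + 1) :
    ((∑ i ∈ Finset.range p, X ^ i) * f).coeff n = ∑ i ∈ Finset.range p, f.coeff (n - i) := by
  rw [Finset.sum_mul, finsetSum_coeff]
  apply Finset.sum_congr rfl
  intro i hi
  rw [Finset.mem_range] at hi
  rw [coeff_X_pow_mul', if_pos (by omega)]

lemma coeff_geom_expand (q : ℕ) (hq : 0 < q) (g : ℤ[X]) (M r : ℕ) (hr : r < q) :
    ((∑ i ∈ Finset.range q, X ^ i) * expand ℤ q g).coeff (q * M + r) = g.coeff M := by
  rw [Finset.sum_mul, finsetSum_coeff]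
  rw [Finset.sum_eq_single r]
  · rw [coeff_X_pow_mul', if_pos (by omega), coeff_expand hq, if_pos (by simp), Nat.add_sub_cancel,
      Nat.mul_div_cancel_left _ hq]
  · intro i hi hne
    rw [Finset.mem_range] at hi
    rw [coeff_X_pow_mul']
    split_ifs with h
    · rw [coeff_expand hq, if_neg]
      intro hd
      have h1 : q ∣ (q * M + r) - i := hd
      rcases Nat.lt_or_ge i r with h2 | h2
      · have : (q * M + r) - i = q * M + (r - i) := by omega
        rw [this, Nat.dvd_add_right (dvd_mul_right q M)] at h1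
        have := Nat.le_of_dvd (by omega) h1
        omega
      · have h3 : r < i := by omega
        have : (q * M + r) - i + (i - r) = q * M := by omega
        have h4 : q ∣ (i - r) := (Nat.dvd_add_right h1).mp (by rw [this]; exact dvd_mul_right q M)
        have := Nat.le_of_dvd (by omega) h4
        omega
    · rfl
  · intro h
    exact absurd (Finset.mem_range.mpr hr) h

lemma coeff_two_geom (p q : ℕ) (hp : 0 < p) (hpq : p ≤ q) :
    ((∑ i ∈ Finset.range p, (X : ℤ[X]) ^ i) * ∑ i ∈ Finset.range q, X ^ i).coeff (p - 1) = (p : ℤ) := by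
  rw [coeff_geom_mul p _ _ (by omega)]
  have : ∀ i ∈ Finset.range p, (∑ j ∈ Finset.range q, (X : ℤ[X]) ^ j).coeff (p - 1 - i) = 1 := by
    intro i hi
    rw [finsetSum_coeff]
    simp only [coeff_X_pow]
    rw [Finset.sum_ite_eq, if_pos (Finset.mem_range.mpr (by omega))]
  rw [Finset.sum_congr rfl this]
  simp

/-- For odd primes `p < q` and `b ≥ 3` some divisor of `x^(p q^b) - 1` in `ℤ[x]` has height at least
`p (p + 1) / 2 > p`. -/
theorem result (p q b : ℕ) (hp : p.Prime) (hq : q.Prime) (hp2 : p ≠ 2) (hpq : p < q) (hb : 2 < b) :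
    (∃ f : ℤ[X], f ∣ X ^ (p * q ^ b) - 1 ∧ p * ((p + 1) / 2) ≤ height f) ∧ p < p * ((p + 1) / 2) := by
  have hp3 : 3 ≤ p := by have := hp.two_le; omega
  have hcop : ¬ q ∣ p := fun h => by have := Nat.le_of_dvd hp.pos h; omega
  have hP : cyclotomic p ℤ = ∑ i ∈ Finset.range p, X ^ i := cyclotomic_prime ℤ p (hp := ⟨hp⟩)
  have hQ : cyclotomic q ℤ = ∑ i ∈ Finset.range q, X ^ i := cyclotomic_prime ℤ q (hp := ⟨hq⟩)
  have e1 : expand ℤ q (cyclotomic p ℤ) = cyclotomic (p * q) ℤ * cyclotomic p ℤ :=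
    cyclotomic_expand_eq_cyclotomic_mul hq hcop ℤ
  have e2 : expand ℤ q (cyclotomic q ℤ) = cyclotomic (q * q) ℤ := cyclotomic_expand_eq_cyclotomic hq dvd_rfl ℤ
  have e3 : expand ℤ q (cyclotomic (p * q) ℤ) = cyclotomic (p * q * q) ℤ :=
    cyclotomic_expand_eq_cyclotomic hq (dvd_mul_left q p) ℤ
  have e4 : expand ℤ q (cyclotomic (q * q) ℤ) = cyclotomic (q * q * q) ℤ :=
    cyclotomic_expand_eq_cyclotomic hq (dvd_mul_left q q) ℤ
  set g : ℤ[X] := cyclotomic (p * q) ℤ * cyclotomic (q * q) ℤ with hg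
  set f : ℤ[X] := cyclotomic p ℤ * cyclotomic q ℤ * (cyclotomic (p * q * q) ℤ * cyclotomic (q * q * q) ℤ) with hf
  -- `Φ_p g = (Φ_p Φ_q)(x^q)`
  have hpg : cyclotomic p ℤ * g = expand ℤ q (cyclotomic p ℤ * cyclotomic q ℤ) := by
    rw [map_mul, e1, e2, hg]; ring
  set N := q * (p - 1) with hN
  have hNp : p ≤ N := by
    have : 2 * (p - 1) ≤ q * (p - 1) := Nat.mul_le_mul_right _ hq.two_le
    omega
  have w1 : ∑ i ∈ Finset.range p, g.coeff (N - i) = (p : ℤ) := by
    rw [← coeff_geom_mul p g N (by omega), ← hP, hpg, coeff_expand hq.pos, if_pos (dvd_mul_right q _), hN,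
      Nat.mul_div_cancel_left _ hq.pos, hP, hQ]
    exact coeff_two_geom p q hp.pos hpq.le
  have w2 : ∑ i ∈ Finset.range p, g.coeff (N + 1 - i) = 0 := by
    rw [← coeff_geom_mul p g (N + 1) (by omega), ← hP, hpg, coeff_expand hq.pos, if_neg]
    intro h
    have h1 : q ∣ 1 := (Nat.dvd_add_right (dvd_mul_right q (p - 1))).mp h
    exact hq.one_lt.ne' (Nat.dvd_one.mp h1)
  have w3 : g.coeff (N + 1 - p) = g.coeff (N + 1) + p := by
    obtain ⟨m, rfl⟩ : ∃ m, p = m + 1 := ⟨p - 1, by omega⟩
    rw [Finset.sum_range_succ'] at w2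
    rw [Finset.sum_range_succ] at w1
    have h1 : ∀ i ∈ Finset.range m, g.coeff (N + 1 - (i + 1)) = g.coeff (N - i) := by
      intro i _; congr 1; omega
    rw [Finset.sum_congr rfl h1, Nat.sub_zero] at w2
    rw [show N + 1 - (m + 1) = N - m by omega]
    linarith
  obtain ⟨M, hM⟩ : ∃ M, (p + 1) / 2 ≤ (g.coeff M).natAbs := by
    by_contra hcon
    push Not at hcon
    have h1 := hcon (N + 1 - p)
    have h2 := hcon (N + 1)
    rw [w3] at h1
    omega
  -- the coefficient of `f`
  have hfe : f = (∑ i ∈ Finset.range p, X ^ i) * ((∑ i ∈ Finset.range q, X ^ i) * expand ℤ q g) := by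
    rw [hf, hg, map_mul, e3, e4, ← hP, ← hQ]; ring
  have hfc : f.coeff (q * M + (p - 1)) = p * g.coeff M := by
    rw [hfe, coeff_geom_mul p _ _ (by omega)]
    have : ∀ i ∈ Finset.range p, ((∑ i ∈ Finset.range q, (X : ℤ[X]) ^ i) * expand ℤ q g).coeff (q * M + (p - 1) - i)
        = g.coeff M := by
      intro i hi
      rw [Finset.mem_range] at hi
      rw [show q * M + (p - 1) - i = q * M + (p - 1 - i) by omega]
      exact coeff_geom_expand q hq.pos g M _ (by omega)
    rw [Finset.sum_congr rfl this]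
    simp
  refine ⟨⟨f, ?_, ?_⟩, ?_⟩
  · -- divisibility
    have hpos : 0 < p * q ^ b := Nat.mul_pos hp.pos (pow_pos hq.pos b)
    rw [← prod_cyclotomic_eq_X_pow_sub_one hpos ℤ]
    have hq1 := hq.one_lt
    have hprod : f = ∏ d ∈ ({p, q, p * q * q, q * q * q} : Finset ℕ), cyclotomic d ℤ := by
      have n1 : p ∉ ({q, p * q * q, q * q * q} : Finset ℕ) := by
        simp only [Finset.mem_insert, Finset.mem_singleton, not_or]
        refine ⟨hpq.ne, ?_, ?_⟩
        · intro h
          have : p * 1 < p * (q * q) := Nat.mul_lt_mul_of_pos_left (by nlinarith) hp.pos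
          rw [mul_assoc] at h; omega
        · intro h
          exact absurd ((hq.dvd_of_dvd_pow (n := 1) (by rw [pow_one]; exact h ▸ dvd_mul_left q (q * q)))) hcop
      have n2 : q ∉ ({p * q * q, q * q * q} : Finset ℕ) := by
        simp only [Finset.mem_insert, Finset.mem_singleton, not_or]
        constructor
        · intro h
          have : 1 * q < p * q * q := Nat.mul_lt_mul_of_pos_right (by nlinarith) hq.pos
          omega
        · intro h
          have : 1 * q < q * q * q := Nat.mul_lt_mul_of_pos_right (by nlinarith) hq.pos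
          omega
      have n3 : p * q * q ∉ ({q * q * q} : Finset ℕ) := by
        simp only [Finset.mem_singleton]
        intro h
        have := Nat.eq_of_mul_eq_mul_right hq.pos (Nat.eq_of_mul_eq_mul_right hq.pos h)
        omega
      rw [Finset.prod_insert n1, Finset.prod_insert n2, Finset.prod_insert n3, Finset.prod_singleton, hf]
      ring
    rw [hprod]
    apply Finset.prod_dvd_prod_of_subset
    intro d hd
    rw [Nat.mem_divisors]
    refine ⟨?_, hpos.ne'⟩
    have hb1 : q ^ 1 ∣ q ^ b := pow_dvd_pow q (by omega)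
    have hb2 : q ^ 2 ∣ q ^ b := pow_dvd_pow q (by omega)
    have hb3 : q ^ 3 ∣ q ^ b := pow_dvd_pow q (by omega)
    simp only [Finset.mem_insert, Finset.mem_singleton] at hd
    rcases hd with rfl | rfl | rfl | rfl
    · exact dvd_mul_right _ _
    · rw [pow_one] at hb1; exact Dvd.dvd.mul_left hb1 _
    · rw [mul_assoc, ← pow_two]; exact mul_dvd_mul_left _ hb2
    · rw [show q * q * q = q ^ 3 by ring]; exact Dvd.dvd.mul_left hb3 _
  · calc p * ((p + 1) / 2) ≤ p * (g.coeff M).natAbs := Nat.mul_le_mul_left _ hM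
      _ = (f.coeff (q * M + (p - 1))).natAbs := by rw [hfc, Int.natAbs_mul, Int.natAbs_natCast]
      _ ≤ height f := le_height f _
  · have : 2 ≤ (p + 1) / 2 := by omega
    nlinarith

end Pool.Agent.Results.MP_7a0dfe_nt.StrictLowerBound
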